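import Pool.Agent.Helper20.QP.St2

/-!
# Project QD (MP_d112a4_gt), PART P, module MUM: Mumford compactness
-/

set_option autoImplicit false

open Filter Topology Matrix Set Metric MeasureTheory
open scoped ComplexConjugate ENNReal

namespace Pool.Agent.Helper54.QP

open Pool.Agent.Helper35.PM (hs Mat SL IsDiscrete)
open Pool.Agent.Helper20.QD Pool.Agent.Helper20.QP

/-- entrywise conjugation of `SL(2,ℂ)` -/
noncomputable def cj : SL →* SL := Matrix.SpecialLinearGroup.map (starRingEnd ℂ)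

theorem cj_apply (A : SL) (i j : Fin 2) : (cj A : Mat) i j = conj ((A : Mat) i j) :=
  rfl

theorem hs_cj (A : SL) : hs (cj A : Mat) = hs (A : Mat) := by
  simp only [hs, cj_apply, RCLike.norm_conj]

theorem mob_cj (A : SL) (z : ℂ) : mob (cj A) z = conj (mob A (conj z)) := by
  simp only [mob, cj_apply, map_div₀, map_add, map_mul, Complex.conj_conj]

theorem conj_mem_D {z : ℂ} (hz : z ∈ D) : conj z ∈ D := by
  rw [mem_ball_zero_iff] at hz ⊢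
  rwa [RCLike.norm_conj]

variable {Γ : Type} [Group Γ]

theorem fuch_cj {σ : Γ →* SL} (h : Fuch σ) : Fuch (cj.comp σ) := by
  refine ⟨?_, ?_, ?_⟩
  · intro γ
    obtain ⟨h1, h2⟩ := h.su γ
    refine ⟨?_, ?_⟩
    · simp only [MonoidHom.comp_apply, cj_apply]
      rw [h1]
    · simp only [MonoidHom.comp_apply, cj_apply]
      rw [h2]
  · intro X
    have := h.discrete X
    simpa only [MonoidHom.comp_apply, hs_cj] using this
  · obtain ⟨r, hr, hc⟩ := h.cocompact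
    refine ⟨r, hr, fun z hz => ?_⟩
    obtain ⟨γ, hγ⟩ := hc (conj z) (conj_mem_D hz)
    refine ⟨γ, ?_⟩
    rw [MonoidHom.comp_apply, mob_cj, RCLike.norm_conj]
    exact hγ

theorem fuch_comp {τ : Γ →* SL} (h : Fuch τ) (φ : Γ ≃* Γ) :
    Fuch (τ.comp φ.toMonoidHom) := by
  refine ⟨fun γ => h.su (φ γ), ?_, ?_⟩
  · intro X
    have h1 := (h.discrete X).preimage (f := φ) (φ.injective.injOn)
    exact h1
  · obtain ⟨r, hr, hc⟩ := h.cocompact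
    refine ⟨r, hr, fun z hz => ?_⟩
    obtain ⟨γ, hγ⟩ := hc z hz
    refine ⟨φ.symm γ, ?_⟩
    have : (τ.comp φ.toMonoidHom) (φ.symm γ) = τ γ := by simp
    rw [this]
    exact hγ

theorem max_lt_one {ι : Type*} {T : Set ι} (hT : T.Finite) (f : ι → ℝ) (h : ∀ i ∈ T, f i < 1) :
    ∃ k : ℝ, 0 ≤ k ∧ k < 1 ∧ ∀ i ∈ T, f i ≤ k := by
  induction T, hT using Set.Finite.induction_on with
  | empty => exact ⟨0, le_refl _, by norm_num, by simp⟩
  | @insert a S ha hS ih =>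
    obtain ⟨k, hk0, hk1, hk⟩ := ih (fun i hi => h i (Set.mem_insert_of_mem _ hi))
    refine ⟨max k (f a), le_max_of_le_left hk0, max_lt hk1 (h a (Set.mem_insert _ _)), ?_⟩
    intro i hi
    rcases Set.mem_insert_iff.1 hi with rfl | hi
    · exact le_max_right _ _
    · exact le_max_of_le_left (hk i hi)

theorem quo_mono {x y : ℝ} (hx : 0 ≤ x) (hxy : x ≤ y) :
    (1 / 2 + x) / (1 + 1 / 2 * x) ≤ (1 / 2 + y) / (1 + 1 / 2 * y) := by
  have h1 : 0 < 1 + 1 / 2 * x := by linarith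
  have h2 : 0 < 1 + 1 / 2 * y := by linarith
  rw [div_le_div_iff₀ h1 h2]
  nlinarith

theorem hMUM (hSUB : StSUB) (hUCC : StUCC) (hPIS : StPIS) (hTBD : StTBD) (hLSD : StLSD)
    (hQCC : StQCC) (hQDFTF : StQDFTF) : StMUM := by
  intro Γ _ s0 A0 ε hTF hs0 hε hA
  obtain ⟨b, hb0, hb⟩ := hUCC A0 ε hε
  obtain ⟨X1, η1, hη1, hL⟩ := hLSD b ε (1 / 2) hb0 hε (by norm_num)
  obtain ⟨X, η0, hη0, hP⟩ := hPIS b ε X1 hb0 hε
  obtain ⟨T, hTf, hTp, hT⟩ := hTBD Γ (fun σ => Fuch σ ∧ Thick σ ε) X (min η0 η1)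
    (lt_min hη0 hη1)
  obtain ⟨hQ1, hQ2, hQ3⟩ := hQCC
  obtain ⟨hS1, -, -, -, -, -⟩ := hSUB
  have hcoc : ∀ σ : Γ →* SL, Fuch σ → Thick σ ε → Coc σ b := by
    intro σ hσ hth
    obtain ⟨F0, hF, hI⟩ := hA σ hσ
    exact hb Γ σ F0 hσ hF hI hth
  -- maps for the finitely many models
  have hex : ∀ τ : Γ →* SL, ∃ (E : ℂ → ℂ) (k : ℝ) (τ' : Γ →* SL), τ ∈ T → (0 ≤ k ∧ k < 1 ∧
      Fuch τ' ∧
      ((∀ γ, τ' γ = τ γ) ∨ (∀ γ i j, (τ' γ : Mat) i j = conj ((τ γ : Mat) i j))) ∧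
      BijOn E D D ∧ ContDiffOn ℝ 1 E D ∧
      (∀ z ∈ D, dz E z ≠ 0 ∧ ‖dzb E z‖ ≤ k * ‖dz E z‖) ∧
      ∀ γ, ∀ z ∈ D, E (mob (s0 γ) z) = mob (τ' γ) (E z)) := by
    intro τ
    by_cases hτ : τ ∈ T
    · obtain ⟨E, k, τ', h0, h1, h2, h3, h4, h5, h6, h7, h8, h9⟩ :=
        hQDFTF Γ s0 τ hs0 (hTp τ hτ).1
      exact ⟨E, k, τ', fun _ => ⟨h0, h1, h2, h3, h5, h7, h8,
        fun γ z hz => h9 γ z (ball_subset_closedBall hz)⟩⟩
    · exact ⟨id, 0, s0, fun h => absurd h hτ⟩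
  choose Ef kf tf hEf using hex
  obtain ⟨k1, hk10, hk11, hk1⟩ := max_lt_one hTf kf (fun τ hτ => (hEf τ hτ).2.1)
  have hden : 0 < 1 + 1 / 2 * k1 := by linarith
  refine ⟨(1 / 2 + k1) / (1 + 1 / 2 * k1), by positivity, ?_, ?_⟩
  · rw [div_lt_one hden]; linarith
  intro σ hσ hth
  obtain ⟨τ, hτT, hc1, hc2⟩ := hT σ ⟨hσ, hth⟩
  obtain ⟨hτF, hτth⟩ := hTp τ hτT
  obtain ⟨φ, hφ⟩ := hP Γ σ τ hσ hτF hth hτth (hcoc σ hσ hth) (hcoc τ hτF hτth) (min η0 η1)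
    (le_of_lt (lt_min hη0 hη1)) (min_le_left _ _) hc1 hc2
  obtain ⟨G, hGb, hGc, hGd, hGe⟩ := hL Γ σ (τ.comp φ.toMonoidHom) hσ (fuch_comp hτF φ) hth
    (hcoc σ hσ hth) (fun γ hγ => (hφ γ hγ).trans (min_le_right _ _))
  obtain ⟨H, hHi, hHb, hHc, hHd⟩ := hQ2 G (1 / 2) (by norm_num) (by norm_num) hGb hGc hGd
  have hGe' : ∀ γ, ∀ z ∈ D, G (mob (σ γ) z) = mob (τ (φ γ)) (G z) := hGe
  -- equivariance of the inverse
  have hHe : ∀ γ, ∀ w ∈ D, H (mob (τ (φ γ)) w) = mob (σ γ) (H w) := by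
    intro γ w hw
    have hHw : H w ∈ D := hHb.mapsTo hw
    have h1 : mob (τ (φ γ)) w = G (mob (σ γ) (H w)) := by
      rw [hGe' γ (H w) hHw, (hHi w hw).2]
    rw [h1]
    exact (hHi _ ((hS1 (σ γ) (hσ.su γ)).2.2.1.mapsTo hHw)).1
  obtain ⟨hk0, hklt, hτ'F, hτ'c, hEb, hEc, hEd, hEe⟩ := hEf τ hτT
  have hkle := quo_mono hk0 (hk1 τ hτT)
  rcases hτ'c with hcase | hcase
  · -- the orientation preserving case
    obtain ⟨hb', hc', hd'⟩ := hQ1 H (Ef τ) (1 / 2) (kf τ) (by norm_num) (by norm_num) hk0 hklt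
      hHb hHc hHd hEb hEc hEd
    refine ⟨φ, σ, fun z => H (Ef τ z), hσ, Or.inl (fun _ => rfl), hb', hc', ?_, ?_⟩
    · intro z hz
      exact ⟨(hd' z hz).1, (hd' z hz).2.trans (mul_le_mul_of_nonneg_right hkle (norm_nonneg _))⟩
    · intro γ z hz
      change H (Ef τ (mob (s0 (φ γ)) z)) = mob (σ γ) (H (Ef τ z))
      rw [hEe (φ γ) z hz, hcase (φ γ)]
      exact hHe γ _ (hEb.mapsTo hz)
  · -- the orientation reversing case
    obtain ⟨hJb, hJc, hJd⟩ := hQ3 H (1 / 2) hHb hHc hHd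
    obtain ⟨hb', hc', hd'⟩ := hQ1 (fun z => conj (H (conj z))) (Ef τ) (1 / 2) (kf τ)
      (by norm_num) (by norm_num) hk0 hklt hJb hJc hJd hEb hEc hEd
    refine ⟨φ, cj.comp σ, fun z => conj (H (conj (Ef τ z))), fuch_cj hσ,
      Or.inr (fun γ i j => cj_apply _ _ _), hb', hc', ?_, ?_⟩
    · intro z hz
      exact ⟨(hd' z hz).1, (hd' z hz).2.trans (mul_le_mul_of_nonneg_right hkle (norm_nonneg _))⟩
    · intro γ z hz
      have hEz : Ef τ z ∈ D := hEb.mapsTo hz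
      have hcz : conj (Ef τ z) ∈ D := conj_mem_D hEz
      have hmt : ∀ δ : Γ, ∀ u : ℂ, mob (tf τ δ) u = conj (mob (τ δ) (conj u)) := by
        intro δ u
        simp only [mob, hcase, map_div₀, map_add, map_mul, Complex.conj_conj]
      change conj (H (conj (Ef τ (mob (s0 (φ γ)) z)))) =
        mob (cj (σ γ)) (conj (H (conj (Ef τ z))))
      rw [hEe (φ γ) z hz, hmt, Complex.conj_conj, hHe γ _ hcz, mob_cj, Complex.conj_conj]

end Pool.Agent.Helper54.QP
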