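import Pool.Agent.Helper20.QP.St3
import Pool.Agent.Helper68.QS.St1

/-!
# Project QD (MP_d112a4_gt), PART P, module MBC: change of normalisation by a Moebius map
-/

set_option autoImplicit false

open Filter Topology Matrix Set Metric MeasureTheory
open scoped ComplexConjugate ENNReal

namespace Pool.Agent.Helper54.QP

open Pool.Agent.Helper35.PM (hs Mat SL IsDiscrete SurfaceGroup Adapted IsQF HolDisc pressureDist)
open Pool.Agent.Helper20.QD Pool.Agent.Helper20.QP
open Pool.Agent.Helper68.QC (nq Bel InvB Intw Sol)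
open Pool.Agent.Helper68.QS (Intw2)

/-- the action on the sphere -/
noncomputable def act2 (A : SL) (p : OnePoint ℂ) : OnePoint ℂ :=
  (Matrix.SpecialLinearGroup.toGL A : Matrix.GeneralLinearGroup (Fin 2) ℂ) • p

theorem act2_mul (A B : SL) (p : OnePoint ℂ) : act2 (A * B) p = act2 A (act2 B p) := by
  unfold act2
  rw [map_mul, mul_smul]

theorem act2_one (p : OnePoint ℂ) : act2 1 p = p := by
  unfold act2
  rw [map_one, one_smul]

theorem act2_inf (A : SL) : act2 A OnePoint.infty =
    if (A : Mat) 1 0 = 0 then OnePoint.infty else (((A : Mat) 0 0 / (A : Mat) 1 0 : ℂ) : OnePoint ℂ) := by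
  unfold act2
  rw [OnePoint.smul_infty_eq_ite]
  rfl

theorem act2_coe (A : SL) (z : ℂ) : act2 A (z : OnePoint ℂ) =
    if den A z = 0 then OnePoint.infty else ((mob A z : ℂ) : OnePoint ℂ) := by
  unfold act2
  rw [OnePoint.smul_some_eq_ite]
  rfl

theorem intw2_iff (A B : SL) (w₁ w₂ : ℂ → ℂ) : Intw2 A B w₁ w₂ ↔
    ∀ p : OnePoint ℂ, OnePoint.map w₂ (act2 A p) = act2 B (OnePoint.map w₁ p) := by
  constructor
  · rintro ⟨h1', h2', h3, h4⟩ p
    have h1 : ∀ z, den A z = 0 ↔ den B (w₁ z) = 0 := h1'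
    have h2 : ∀ z, den A z ≠ 0 → w₂ (mob A z) = mob B (w₁ z) := h2'
    induction p using OnePoint.rec with
    | infty =>
      rw [OnePoint.map_infty, act2_inf, act2_inf]
      by_cases h : (A : Mat) 1 0 = 0
      · rw [if_pos h, if_pos (h3.1 h), OnePoint.map_infty]
      · rw [if_neg h, if_neg (fun h' => h (h3.2 h')), OnePoint.map_some]
        exact congrArg _ (h4 h)
    | coe z =>
      rw [OnePoint.map_some, act2_coe, act2_coe]
      by_cases h : den A z = 0
      · rw [if_pos h, if_pos ((h1 z).1 h), OnePoint.map_infty]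
      · rw [if_neg h, if_neg (fun h' => h ((h1 z).2 h')), OnePoint.map_some]
        exact congrArg _ (h2 z h)
  · intro hp
    have hz : ∀ z : ℂ, OnePoint.map w₂ (act2 A (z : OnePoint ℂ)) = act2 B ((w₁ z : ℂ) : OnePoint ℂ) :=
      fun z => hp z
    have hi := hp OnePoint.infty
    rw [OnePoint.map_infty, act2_inf, act2_inf] at hi
    have e1 : ∀ z, den A z = 0 ↔ den B (w₁ z) = 0 := by
      intro z
      have := hz z
      rw [act2_coe, act2_coe] at this
      by_cases h : den A z = 0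
      · rw [if_pos h, OnePoint.map_infty] at this
        by_cases h' : den B (w₁ z) = 0
        · exact ⟨fun _ => h', fun _ => h⟩
        · rw [if_neg h'] at this
          exact absurd this.symm (OnePoint.coe_ne_infty _)
      · rw [if_neg h, OnePoint.map_some] at this
        by_cases h' : den B (w₁ z) = 0
        · rw [if_pos h'] at this
          exact absurd this (OnePoint.coe_ne_infty _)
        · exact ⟨fun hh => absurd hh h, fun hh => absurd hh h'⟩
    have e3 : (A : Mat) 1 0 = 0 ↔ (B : Mat) 1 0 = 0 := by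
      by_cases h : (A : Mat) 1 0 = 0
      · rw [if_pos h, OnePoint.map_infty] at hi
        by_cases h' : (B : Mat) 1 0 = 0
        · exact ⟨fun _ => h', fun _ => h⟩
        · rw [if_neg h'] at hi
          exact absurd hi.symm (OnePoint.coe_ne_infty _)
      · rw [if_neg h, OnePoint.map_some] at hi
        by_cases h' : (B : Mat) 1 0 = 0
        · rw [if_pos h'] at hi
          exact absurd hi (OnePoint.coe_ne_infty _)
        · exact ⟨fun hh => absurd hh h, fun hh => absurd hh h'⟩
    refine ⟨e1, ?_, e3, ?_⟩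
    · intro z h0
      have h : ¬ den A z = 0 := h0
      have := hz z
      rw [act2_coe, act2_coe, if_neg h, if_neg (fun h' => h ((e1 z).2 h')),
        OnePoint.map_some] at this
      exact OnePoint.coe_injective this
    · intro h
      rw [if_neg h, if_neg (fun h' => h (e3.2 h')), OnePoint.map_some] at hi
      exact OnePoint.coe_injective hi

theorem intw_iff (A B : SL) (w : ℂ → ℂ) : Intw A B w ↔ Intw2 A B w w := Iff.rfl

theorem den_mob_inv (C : SL) (z : ℂ) (h : den C z ≠ 0) :
    mob C⁻¹ (mob C z) = z ∧ den C⁻¹ (mob C z) * den C z = 1 := by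
  have hdet := C.det_coe
  rw [Matrix.det_fin_two] at hdet
  have e00 : ((C⁻¹ : SL) : Mat) 0 0 = (C : Mat) 1 1 := by
    rw [Matrix.SpecialLinearGroup.coe_inv, Matrix.adjugate_fin_two]; rfl
  have e01 : ((C⁻¹ : SL) : Mat) 0 1 = - (C : Mat) 0 1 := by
    rw [Matrix.SpecialLinearGroup.coe_inv, Matrix.adjugate_fin_two]; rfl
  have e10 : ((C⁻¹ : SL) : Mat) 1 0 = - (C : Mat) 1 0 := by
    rw [Matrix.SpecialLinearGroup.coe_inv, Matrix.adjugate_fin_two]; rfl
  have e11 : ((C⁻¹ : SL) : Mat) 1 1 = (C : Mat) 0 0 := by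
    rw [Matrix.SpecialLinearGroup.coe_inv, Matrix.adjugate_fin_two]; rfl
  have h' : (C : Mat) 1 0 * z + (C : Mat) 1 1 ≠ 0 := h
  have hd : den C⁻¹ (mob C z) * den C z = 1 := by
    simp only [den, mob, e10, e11]
    field_simp
    linear_combination hdet
  refine ⟨?_, hd⟩
  have hd0 : den C⁻¹ (mob C z) ≠ 0 := fun hh => by rw [hh, zero_mul] at hd; exact zero_ne_one hd
  have : mob C⁻¹ (mob C z) = ((C : Mat) 1 1 * mob C z - (C : Mat) 0 1) / den C⁻¹ (mob C z) := by
    simp only [mob, den, e00, e01]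
    ring_nf
  rw [this, div_eq_iff hd0]
  have hdi : den C⁻¹ (mob C z) = 1 / den C z := by rw [eq_div_iff h]; exact hd
  rw [hdi]
  change (C : Mat) 1 1 * (((C : Mat) 0 0 * z + (C : Mat) 0 1) / ((C : Mat) 1 0 * z + (C : Mat) 1 1)) -
    (C : Mat) 0 1 = z * (1 / ((C : Mat) 1 0 * z + (C : Mat) 1 1))
  rw [mul_one_div, mul_div_assoc', div_sub' h', div_left_inj' h']
  linear_combination z * hdet

theorem hMBC (hGEV : Pool.Agent.Helper68.QS.StGEV) : StMBC := by
  intro k hk μ hμ C
  have hk0 : 0 ≤ k := (norm_nonneg _).trans (hμ.le 0)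
  set μ' : ℂ → ℂ := fun y => μ (mob C⁻¹ y) * (den C⁻¹ y ^ 2 / conj (den C⁻¹ y) ^ 2) with hμ'
  have hdenm : Measurable (den C⁻¹) := by
    have : Continuous (den C⁻¹) := by unfold den; fun_prop
    exact this.measurable
  have hmobm : Measurable (mob C⁻¹) := by
    have h1 : Continuous (fun z : ℂ => ((C⁻¹ : SL) : Mat) 0 0 * z + ((C⁻¹ : SL) : Mat) 0 1) := by
      fun_prop
    exact h1.measurable.div hdenm
  have hbel : Bel k μ' := by
    refine ⟨?_, ?_⟩
    · exact (hμ.meas.comp hmobm).mul ((hdenm.pow_const 2).div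
        ((Complex.continuous_conj.measurable.comp hdenm).pow_const 2))
    · intro z
      rw [hμ', norm_mul]
      have h1 : ‖den C⁻¹ z ^ 2 / conj (den C⁻¹ z) ^ 2‖ ≤ 1 := by
        rw [← div_pow, norm_pow, norm_div, RCLike.norm_conj]
        exact pow_le_one₀ (by positivity) (div_self_le_one _)
      calc ‖μ (mob C⁻¹ z)‖ * ‖den C⁻¹ z ^ 2 / conj (den C⁻¹ z) ^ 2‖ ≤ k * 1 :=
            mul_le_mul (hμ.le _) h1 (norm_nonneg _) hk0
        _ = k := mul_one _
  have hsub : {z : ℂ | den C z = 0}.Subsingleton := by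
    intro z hz w hw
    have hz' : (C : Mat) 1 0 * z + (C : Mat) 1 1 = 0 := hz
    have hw' : (C : Mat) 1 0 * w + (C : Mat) 1 1 = 0 := hw
    have hdet := C.det_coe
    rw [Matrix.det_fin_two] at hdet
    by_cases hc : (C : Mat) 1 0 = 0
    · exfalso
      rw [hc] at hz' hdet
      have : (C : Mat) 1 1 = 0 := by simpa using hz'
      rw [this] at hdet
      simp at hdet
    · have h3 : (C : Mat) 1 0 * (z - w) = 0 := by linear_combination hz' - hw'
      rcases mul_eq_zero.1 h3 with h | h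
      · exact absurd h hc
      · exact sub_eq_zero.1 h
  have hnull : ∀ᵐ z : ℂ, den C z ≠ 0 := by
    have := hsub.measure_zero (volume : Measure ℂ)
    rw [ae_iff]
    convert this using 3
    simp
  have hae : ∀ᵐ z : ℂ, μ' (mob C z) * den C z ^ 2 = μ z * conj (den C z) ^ 2 := by
    filter_upwards [hnull] with z hz
    obtain ⟨h1, h2⟩ := den_mob_inv C z hz
    have h3 : den C⁻¹ (mob C z) = 1 / den C z := by rw [eq_div_iff hz]; exact h2
    have hc : conj (den C z) ≠ 0 := (map_ne_zero _).2 hz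
    simp only [hμ']
    rw [h1, h3, map_div₀, map_one]
    field_simp
  obtain ⟨C', hC'⟩ := hGEV k hk μ μ' hμ hbel C hae
  obtain ⟨a1, a2, a3, a4⟩ := hC'
  have hC2 : Intw2 C C' (nq μ) (nq μ') := ⟨a1, a2, a3, a4⟩
  refine ⟨μ', C', hbel, hae, fun z hz => ⟨fun h => hz ((a1 z).2 h), a2 z hz⟩, ?_⟩
  intro X Y hXY
  rw [intw_iff, intw2_iff] at hXY ⊢
  rw [intw2_iff] at hC2
  intro p
  have hp : p = act2 C (act2 C⁻¹ p) := by rw [← act2_mul, mul_inv_cancel, act2_one]
  set r := act2 C⁻¹ p with hr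
  rw [act2_mul (C * X), ← hr, act2_mul C X, hC2, hXY, ← act2_mul]
  have h5 : OnePoint.map (nq μ') p = act2 C' (OnePoint.map (nq μ) r) := by
    rw [← hC2, ← hp]
  rw [h5, ← act2_mul, inv_mul_cancel_right]

end Pool.Agent.Helper54.QP
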